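import Pool.Agent.R820.GH3

namespace Pool.Agent.Results.MP_029391_gt.NoSimultaneous

open Pool.Agent.R820.GH3

/-- There are three compact metric spaces `X 0, X 1, X 2` (finite ones, with 2, 2 and 4 points)
such that no `R ⊆ X 0 × X 1 × X 2` has its three projections simultaneously optimal. -/
theorem result :
    ¬ ∀ (X : Fin 3 → Type) [∀ i, MetricSpace (X i)] [∀ i, CompactSpace (X i)]
        [∀ i, Nonempty (X i)],
      ∃ R : Set (∀ i, X i), ∀ i j : Fin 3, i ≠ j → IsOptimal (e i j R) := by
  intro h
  obtain ⟨R, hR⟩ := h Sp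
  exact key R (hR 0 1 (by decide)) (hR 0 2 (by decide)) (hR 1 2 (by decide))

end Pool.Agent.Results.MP_029391_gt.NoSimultaneous
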